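import Pool.Agent.U978.FO.Val

/-!
# Two unramified finite orbits give a separated multiple
-/

set_option autoImplicit false

namespace Pool.Agent.U978.FO

open Polynomial Polynomial.Bivariate

universe u

variable {K : Type u} [Field K]

/-- All the fibres over `A` are full (`deg_y P` simple points), and they are contained in `B`. -/
def Full (P : K[X][Y]) (A B : Finset K) : Prop :=
  ∀ α ∈ A, (fib P α).natDegree = P.natDegree ∧ (fib P α).Separable ∧
    ∀ β, (fib P α).IsRoot β → β ∈ B

section valuation

variable {L : Type u} [Field L] [Algebra K L]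
variable {Γ : Type u} [LinearOrderedCommGroupWithZero Γ] {v : Valuation L Γ}

/-- `max(1, v x)` is the contribution of a coordinate at infinity -/
lemma half [IsAlgClosed K] (hv : Triv K v) {x y : L} (P : K[X][Y])
    (hP : aevalAeval x y P = 0) (A B : Finset K) (hA : Full P A B) (hB : Full (swap P) B A) :
    v (∏ α ∈ A, (x - algebraMap K L α)) * (max 1 (v y)) ^ B.card =
      v (∏ β ∈ B, (y - algebraMap K L β)) * (max 1 (v x)) ^ A.card := by
  have hP' : aevalAeval y x (swap P) = 0 := by rw [Bivariate.aevalAeval_swap, hP]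
  rw [map_prod, map_prod]
  rcases le_or_gt (v x) 1 with hx | hx <;> rcases le_or_gt (v y) 1 with hy | hy
  · rw [max_eq_left hx, max_eq_left hy, one_pow, one_pow, mul_one, mul_one]
    by_cases hα : ∃ α ∈ A, v (x - algebraMap K L α) < 1
    · obtain ⟨α, hαA, hα1⟩ := hα
      obtain ⟨hdeg, hsep, hroots⟩ := hA α hαA
      obtain ⟨G, hG⟩ := expand P α
      have e : aeval y (fib P α) = -((x - algebraMap K L α) * aevalAeval x y G) := by
        have h3 := congrArg (aevalAeval x y) hG
        rw [hP, map_add, map_mul, aevalAeval_C, ← Bivariate.swap_C, Bivariate.aevalAeval_swap,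
          aevalAeval_C, map_sub, aeval_X, aeval_C] at h3
        linear_combination -h3
      have h1 : v (aeval y (fib P α)) < 1 := by
        rw [e, v.map_neg, map_mul]
        exact mul_lt_one_of_nonneg_of_lt_one_left zero_le hα1 (hv.aeval2_le hx hy G)
      obtain ⟨β, hβr, hβ1⟩ := hv.exists_root hy (fib P α) hsep.ne_zero h1
      have hβB := hroots β hβr
      obtain ⟨hdeg', hsep', hroots'⟩ := hB β hβB
      have h2 := hv.local_eq hx hy P hP (α := α) (β := β)
        (by rw [← fib_eval]; exact hβr) hsep hsep' hα1 hβ1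
      rw [Finset.prod_eq_single_of_mem α hαA fun a _ hne => hv.sub_of_ne hα1 hne.symm,
        Finset.prod_eq_single_of_mem β hβB fun b _ hne => hv.sub_of_ne hβ1 hne.symm, h2]
    · push Not at hα
      have h1 : ∀ α ∈ A, v (x - algebraMap K L α) = 1 := fun α hαA =>
        le_antisymm (hv.sub_le hx α) (hα α hαA)
      have h2 : ∀ β ∈ B, v (y - algebraMap K L β) = 1 := by
        intro β hβB
        by_contra hne
        have hβ1 : v (y - algebraMap K L β) < 1 := lt_of_le_of_ne (hv.sub_le hy β) hne
        obtain ⟨hdeg, hsep, hroots⟩ := hB β hβB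
        obtain ⟨G, hG⟩ := expand (swap P) β
        have e : aeval x (fib (swap P) β) = -((y - algebraMap K L β) * aevalAeval y x G) := by
          have h3 := congrArg (aevalAeval y x) hG
          rw [hP', map_add, map_mul, aevalAeval_C, ← Bivariate.swap_C, Bivariate.aevalAeval_swap,
            aevalAeval_C, map_sub, aeval_X, aeval_C] at h3
          linear_combination -h3
        have h3 : v (aeval x (fib (swap P) β)) < 1 := by
          rw [e, v.map_neg, map_mul]
          exact mul_lt_one_of_nonneg_of_lt_one_left zero_le hβ1 (hv.aeval2_le hy hx G)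
        obtain ⟨α, hαr, hα1⟩ := hv.exists_root hx _ hsep.ne_zero h3
        exact absurd (h1 α (hroots α hαr)) hα1.ne
      rw [Finset.prod_eq_one h1, Finset.prod_eq_one h2]
  · -- `y` infinite, `x` finite
    rw [max_eq_left hx, max_eq_right hy.le, one_pow, mul_one]
    have h1 : ∀ α ∈ A, v (x - algebraMap K L α) = 1 := fun α hαA => by
      obtain ⟨hdeg, hsep, hroots⟩ := hA α hαA
      have h2 := hv.at_infinity hy hx (swap P) hP' (β := α)
      rw [Bivariate.swap_swap_apply] at h2
      exact h2 hsep.ne_zero hdeg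
    rw [Finset.prod_eq_one h1, one_mul, Finset.prod_congr rfl fun β _ => hv.sub_of_one_lt hy β,
      Finset.prod_const]
  · rw [max_eq_right hx.le, max_eq_left hy, one_pow, mul_one]
    have h1 : ∀ β ∈ B, v (y - algebraMap K L β) = 1 := fun β hβB => by
      obtain ⟨hdeg, hsep, hroots⟩ := hB β hβB
      exact hv.at_infinity hx hy P hP hsep.ne_zero hdeg
    rw [Finset.prod_eq_one h1, one_mul, Finset.prod_congr rfl fun α _ => hv.sub_of_one_lt hx α,
      Finset.prod_const]
  · rw [max_eq_right hx.le, max_eq_right hy.le, Finset.prod_congr rfl fun β _ =>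
      hv.sub_of_one_lt hy β, Finset.prod_congr rfl fun α _ => hv.sub_of_one_lt hx α,
      Finset.prod_const, Finset.prod_const, mul_comm]

end valuation

/-- the number of the points of an unramified orbit -/
lemma card_eq [IsAlgClosed K] [DecidableEq K] (P : K[X][Y]) (A B : Finset K) (hA : Full P A B)
    (hB : Full (swap P) B A) : A.card * P.natDegree = B.card * (swap P).natDegree := by
  have key : ∀ (Q : K[X][Y]) (A B : Finset K), Full Q A B →
      ((A ×ˢ B).filter fun t => Q.evalEval t.1 t.2 = 0).card = A.card * Q.natDegree := by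
    intro Q A B h
    rw [Finset.card_filter, Finset.sum_product]
    have h1 : ∀ α ∈ A, ∑ β ∈ B, (if Q.evalEval α β = 0 then 1 else 0) = Q.natDegree := by
      intro α hα
      obtain ⟨hdeg, hsep, hroots⟩ := h α hα
      rw [← Finset.card_filter]
      have h2 : (B.filter fun β => Q.evalEval α β = 0) = (fib Q α).roots.toFinset := by
        ext β
        rw [Finset.mem_filter, Multiset.mem_toFinset, mem_roots hsep.ne_zero, IsRoot.def, fib_eval]
        exact ⟨fun h => h.2, fun h => ⟨hroots β (by rw [IsRoot.def, fib_eval]; exact h), h⟩⟩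
      rw [h2, Multiset.toFinset_card_of_nodup (nodup_roots hsep), ← hdeg]
      exact ((IsAlgClosed.splits (fib Q α)).natDegree_eq_card_roots).symm
    rw [Finset.sum_congr rfl h1, Finset.sum_const, smul_eq_mul]
  have h1 := key P A B hA
  have h2 := key (swap P) B A hB
  rw [← h1, ← h2]
  refine Finset.card_bij (fun t _ => (t.2, t.1)) ?_ ?_ ?_
  · rintro ⟨a, b⟩ h
    simp only [Finset.mem_filter, Finset.mem_product] at h ⊢
    exact ⟨⟨h.1.2, h.1.1⟩, by rw [evalEval_swap]; exact h.2⟩
  · rintro ⟨a, b⟩ _ ⟨a', b'⟩ _ h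
    simp only [Prod.mk.injEq] at h ⊢
    exact ⟨h.2, h.1⟩
  · rintro ⟨b, a⟩ h
    simp only [Finset.mem_filter, Finset.mem_product] at h
    refine ⟨(a, b), ?_, rfl⟩
    simp only [Finset.mem_filter, Finset.mem_product]
    exact ⟨⟨h.1.2, h.1.1⟩, by rw [← evalEval_swap]; exact h.2⟩

/-- An element of a field over the algebraically closed field `K` which is in all valuation rings
containing `K` is in `K`. -/
lemma mem_of_all [IsAlgClosed K] {L : Type u} [Field L] [Algebra K L] (z : L)
    (h : ∀ V : ValuationSubring L, (∀ k : K, algebraMap K L k ∈ V) → z ∈ V) :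
    ∃ k : K, algebraMap K L k = z := by
  have h1 : z ∈ (⨅ V : {V : ValuationSubring L // Set.range (algebraMap K L) ⊆ V.toSubring},
      V.1.toSubring) := by
    rw [Subring.mem_iInf]
    rintro ⟨V, hV⟩
    exact h V fun k => hV ⟨k, rfl⟩
  rw [iInf_valuationSubring_superset] at h1
  have h2 : IsIntegral (Subring.closure (Set.range (algebraMap K L))) z := h1
  have h3 : Subring.closure (Set.range (algebraMap K L)) = (algebraMap K L).range := by
    rw [← RingHom.coe_range, Subring.closure_eq]
  rw [h3] at h2
  have h4 : IsIntegral K z := by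
    obtain ⟨q, hq, hqz⟩ := h2
    have hl : q ∈ Polynomial.lifts (algebraMap K L).rangeRestrict := by
      rw [Polynomial.mem_lifts]
      exact Polynomial.map_surjective _ (RingHom.rangeRestrict_surjective _) q
    obtain ⟨q', hq', -, hq'm⟩ := Polynomial.lifts_and_natDegree_eq_and_monic hl hq
    refine ⟨q', hq'm, ?_⟩
    rw [← hq', eval₂_map] at hqz
    exact hqz
  have h5 : (minpoly K z).degree = 1 :=
    IsAlgClosed.degree_eq_one_of_irreducible K (minpoly.irreducible h4)
  exact minpoly.mem_range_of_degree_eq_one K z h5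

/-- the polynomial with the simple roots `A` -/
noncomputable def rp (A : Finset K) : K[X] := ∏ α ∈ A, (X - C α)

lemma rp_ne (A : Finset K) : rp A ≠ 0 := Finset.prod_ne_zero_iff.2 fun α _ => X_sub_C_ne_zero α

lemma rp_eval {A : Finset K} {α : K} : (rp A).eval α = 0 ↔ α ∈ A := by
  rw [rp, eval_prod, Finset.prod_eq_zero_iff]
  constructor
  · rintro ⟨b, hb, h⟩
    rw [eval_sub, eval_X, eval_C, sub_eq_zero] at h
    rwa [h]
  · intro h
    exact ⟨α, h, by rw [eval_sub, eval_X, eval_C, sub_self]⟩

lemma aeval_rp {L : Type u} [Field L] [Algebra K L] (A : Finset K) (x : L) :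
    aeval x (rp A) = ∏ α ∈ A, (x - algebraMap K L α) := by
  rw [rp, map_prod]
  exact Finset.prod_congr rfl fun α _ => by rw [map_sub, aeval_X, aeval_C]

lemma pow_aux {M : Type*} [CommMonoid M] (a b y x : M) (p q s t : ℕ) :
    (a * y ^ p) ^ s * (b * x ^ q) ^ t = a ^ s * b ^ t * (x ^ (q * t) * y ^ (p * s)) := by
  rw [mul_pow, mul_pow, ← pow_mul, ← pow_mul, mul_mul_mul_comm, mul_comm (y ^ _)]

/-- the function field of the curve -/
lemma exists_field (P : K[X][Y]) (hP : Prime P) :
    ∃ (L : Type u) (_ : Field L) (_ : Algebra K L) (φ : K[X][Y] →ₐ[K] L),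
      ∀ Q, φ Q = 0 ↔ P ∣ Q := by
  have hI : (Ideal.span {P} : Ideal K[X][Y]).IsPrime :=
    (Ideal.span_singleton_prime hP.ne_zero).2 hP
  refine ⟨FractionRing (K[X][Y] ⧸ (Ideal.span {P} : Ideal K[X][Y])), inferInstance, inferInstance,
    (IsScalarTower.toAlgHom K (K[X][Y] ⧸ (Ideal.span {P} : Ideal K[X][Y])) _).comp
      (Ideal.Quotient.mkₐ K (Ideal.span {P})), fun Q => ?_⟩
  have key : ∀ r : K[X][Y] ⧸ (Ideal.span {P} : Ideal K[X][Y]),
      algebraMap (K[X][Y] ⧸ (Ideal.span {P} : Ideal K[X][Y]))
        (FractionRing (K[X][Y] ⧸ (Ideal.span {P} : Ideal K[X][Y]))) r = 0 ↔ r = 0 := fun r =>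
    map_eq_zero_iff _ (IsFractionRing.injective (K[X][Y] ⧸ (Ideal.span {P} : Ideal K[X][Y]))
      (FractionRing (K[X][Y] ⧸ (Ideal.span {P} : Ideal K[X][Y]))))
  exact (key _).trans (Ideal.Quotient.eq_zero_iff_mem.trans Ideal.mem_span_singleton)

/-- Two unramified finite orbits give a nonconstant separated multiple. -/
theorem two_orbits [IsAlgClosed K] [DecidableEq K] (P : K[X][Y]) (hP : Prime P)
    (hx : ∀ a : K[X], a ≠ 0 → ¬ P ∣ C a) (hy : ∀ b : K[X], b ≠ 0 → ¬ P ∣ b.map C)
    (hm : 0 < (swap P).natDegree)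
    {A B A' B' : Finset K} (hA : Full P A B) (hB : Full (swap P) B A)
    (hA' : Full P A' B') (hB' : Full (swap P) B' A') :
    ∃ k : K, P ∣ C (rp A ^ A'.card) * (rp B' ^ A.card).map C -
      C (rp A' ^ A.card) * (C k * rp B ^ A'.card).map C := by
  obtain ⟨L, _, _, φ, hφ0⟩ := exists_field P hP
  let x : L := φ (C X)
  let y : L := φ Y
  have hev : ∀ Q, aevalAeval x y Q = φ Q := by
    intro Q
    have : (aevalAeval x y : K[X][Y] →ₐ[K] L) = φ := by
      apply (aevalAevalEquiv K L).symm.injective
      rw [← aevalAevalEquiv_apply (R := K) (A := L) (x, y), Equiv.symm_apply_apply]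
      rfl
    rw [this]
  have hP0 : aevalAeval x y P = 0 := by rw [hev, hφ0]
  have hax : ∀ f : K[X], aeval x f = φ (C f) := fun f => by rw [← hev, aevalAeval_C]
  have hay : ∀ f : K[X], aeval y f = φ (f.map C) := fun f => by
    rw [← hev, ← Bivariate.swap_C, Bivariate.aevalAeval_swap, aevalAeval_C]
  have nx : ∀ f : K[X], f ≠ 0 → aeval x f ≠ 0 := fun f hf h => by
    rw [hax, hφ0] at h
    exact hx f hf h
  have ny : ∀ f : K[X], f ≠ 0 → aeval y f ≠ 0 := fun f hf h => by
    rw [hay, hφ0] at h
    exact hy f hf h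
  have hc := card_eq P A B hA hB
  have hc' := card_eq P A' B' hA' hB'
  have hcc : B.card * A'.card = B'.card * A.card := by
    have : (B.card * A'.card) * (swap P).natDegree = (B'.card * A.card) * (swap P).natDegree := by
      calc (B.card * A'.card) * (swap P).natDegree
          = (B.card * (swap P).natDegree) * A'.card := by ring
        _ = (A.card * P.natDegree) * A'.card := by rw [hc]
        _ = (A'.card * P.natDegree) * A.card := by ring
        _ = (B'.card * (swap P).natDegree) * A.card := by rw [hc']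
        _ = _ := by ring
    exact Nat.eq_of_mul_eq_mul_right hm this
  -- the unit
  let z : L := (aeval x (rp A) ^ A'.card * aeval y (rp B') ^ A.card) /
    (aeval x (rp A') ^ A.card * aeval y (rp B) ^ A'.card)
  obtain ⟨k, hk⟩ := mem_of_all (K := K) z (by
    intro V hV
    have hv : Triv K V.valuation := by
      intro c hc0
      have h1 : V.valuation (algebraMap K L c) ≤ 1 := (V.valuation_le_one_iff _).2 (hV c)
      have h2 : V.valuation (algebraMap K L c⁻¹) ≤ 1 := (V.valuation_le_one_iff _).2 (hV _)
      have h3 : V.valuation (algebraMap K L c) * V.valuation (algebraMap K L c⁻¹) = 1 := by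
        rw [← map_mul, ← map_mul, mul_inv_cancel₀ hc0, map_one, map_one]
      refine le_antisymm h1 ?_
      calc (1 : _) = V.valuation (algebraMap K L c) * V.valuation (algebraMap K L c⁻¹) := h3.symm
        _ ≤ V.valuation (algebraMap K L c) * 1 := mul_le_mul_right h2 _
        _ = _ := mul_one _
    rw [← V.valuation_le_one_iff]
    have e1 := half hv P hP0 A B hA hB
    have e2 := half hv P hP0 A' B' hA' hB'
    rw [← aeval_rp, ← aeval_rp] at e1 e2
    set X1 := max 1 (V.valuation x)
    set Y1 := max 1 (V.valuation y)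
    have hX1 : X1 ≠ 0 := (zero_lt_one.trans_le (le_max_left _ _)).ne'
    have hY1 : Y1 ≠ 0 := (zero_lt_one.trans_le (le_max_left _ _)).ne'
    have e3 : V.valuation (aeval x (rp A) ^ A'.card * aeval y (rp B') ^ A.card) =
        V.valuation (aeval x (rp A') ^ A.card * aeval y (rp B) ^ A'.card) := by
      rw [map_mul, map_mul, map_pow, map_pow, map_pow, map_pow]
      have e4 : (V.valuation (aeval x (rp A)) * Y1 ^ B.card) ^ A'.card *
          (V.valuation (aeval y (rp B')) * X1 ^ A'.card) ^ A.card =
          (V.valuation (aeval y (rp B)) * X1 ^ A.card) ^ A'.card *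
          (V.valuation (aeval x (rp A')) * Y1 ^ B'.card) ^ A.card := by
        rw [e1, ← e2]
      have e5 : X1 ^ (A'.card * A.card) * Y1 ^ (B.card * A'.card) ≠ 0 :=
        mul_ne_zero (pow_ne_zero _ hX1) (pow_ne_zero _ hY1)
      apply mul_right_cancel₀ e5
      calc V.valuation (aeval x (rp A)) ^ A'.card * V.valuation (aeval y (rp B')) ^ A.card *
            (X1 ^ (A'.card * A.card) * Y1 ^ (B.card * A'.card))
          = (V.valuation (aeval x (rp A)) * Y1 ^ B.card) ^ A'.card *
            (V.valuation (aeval y (rp B')) * X1 ^ A'.card) ^ A.card := by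
            rw [pow_aux]
        _ = (V.valuation (aeval y (rp B)) * X1 ^ A.card) ^ A'.card *
          (V.valuation (aeval x (rp A')) * Y1 ^ B'.card) ^ A.card := e4
        _ = V.valuation (aeval x (rp A')) ^ A.card * V.valuation (aeval y (rp B)) ^ A'.card *
            (X1 ^ (A'.card * A.card) * Y1 ^ (B.card * A'.card)) := by
            rw [pow_aux, hcc, mul_comm A.card A'.card,
              mul_comm (V.valuation (aeval y (rp B)) ^ A'.card), mul_comm (Y1 ^ _)]
    have e6 : V.valuation (aeval x (rp A') ^ A.card * aeval y (rp B) ^ A'.card) ≠ 0 := by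
      rw [ne_eq, map_eq_zero]
      exact mul_ne_zero (pow_ne_zero _ (nx _ (rp_ne _))) (pow_ne_zero _ (ny _ (rp_ne _)))
    change V.valuation (_ / _) ≤ 1
    rw [map_div₀, e3, div_self e6])
  refine ⟨k, ?_⟩
  have hz : aeval x (rp A) ^ A'.card * aeval y (rp B') ^ A.card =
      algebraMap K L k * (aeval x (rp A') ^ A.card * aeval y (rp B) ^ A'.card) := by
    rw [hk]
    refine (div_mul_cancel₀ _ ?_).symm
    exact mul_ne_zero (pow_ne_zero _ (nx _ (rp_ne _))) (pow_ne_zero _ (ny _ (rp_ne _)))
  rw [← hφ0, map_sub, map_mul, map_mul, ← hax, ← hay, ← hax, ← hay]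
  simp only [map_pow, map_mul, aeval_C]
  rw [hz]
  ring

/-- For all but finitely many `α` the fibre over `α` is full. -/
theorem bad_finite [CharZero K] (P : K[X][Y]) (hP : Irreducible P) (hn : P.natDegree ≠ 0) :
    {α : K | ¬ ((fib P α).natDegree = P.natDegree ∧ (fib P α).Separable)}.Finite := by
  classical
  let F := FractionRing K[X]
  have hprim : P.IsPrimitive := hP.isPrimitive hn
  have hirr : Irreducible (P.map (algebraMap K[X] F)) :=
    (hprim.irreducible_iff_irreducible_map_fraction_map).1 hP
  have : CharZero F := charZero_of_injective_algebraMap (R := K[X])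
    (IsFractionRing.injective K[X] F)
  have hsep : (P.map (algebraMap K[X] F)).Separable := hirr.separable
  have hres : P.resultant (derivative P) ≠ 0 := by
    have h1 := resultant_ne_zero _ _ hsep
    have h2 : (P.map (algebraMap K[X] F)).natDegree = P.natDegree :=
      natDegree_map_eq_of_injective (IsFractionRing.injective K[X] F) P
    have h3 : (derivative (P.map (algebraMap K[X] F))).natDegree = (derivative P).natDegree := by
      rw [derivative_map]
      exact natDegree_map_eq_of_injective (IsFractionRing.injective K[X] F) _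
    rw [h2, h3, derivative_map, resultant_map_map] at h1
    exact fun h => h1 (by rw [h, map_zero])
  obtain ⟨p, q, -, -, hpq⟩ := exists_mul_add_mul_eq_C_resultant P (derivative P) le_rfl le_rfl
    (Or.inl hn)
  obtain ⟨r, hr⟩ : ∃ r, r = P.resultant (derivative P) := ⟨_, rfl⟩
  rw [← hr] at hpq hres
  have hlc : P.leadingCoeff ≠ 0 := leadingCoeff_ne_zero.2 hP.ne_zero
  refine Set.Finite.subset ((r * P.leadingCoeff).roots.toFinset.finite_toSet) ?_
  intro α hα
  rw [Finset.mem_coe, Multiset.mem_toFinset, mem_roots (mul_ne_zero hres hlc), IsRoot.def,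
    eval_mul, mul_eq_zero]
  by_contra hcon
  push Not at hcon
  apply hα
  constructor
  · unfold fib
    exact natDegree_map_of_leadingCoeff_ne_zero _ (by rw [coe_evalRingHom]; exact hcon.2)
  · have h1 := congrArg (Polynomial.map (evalRingHom α)) hpq
    rw [Polynomial.map_add, Polynomial.map_mul, Polynomial.map_mul, Polynomial.map_C,
      ← derivative_map, coe_evalRingHom] at h1
    change IsCoprime (fib P α) (derivative (fib P α))
    refine ⟨C (r.eval α)⁻¹ * p.map (evalRingHom α), C (r.eval α)⁻¹ * q.map (evalRingHom α), ?_⟩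
    have h2 : C (r.eval α)⁻¹ * C (r.eval α) = (1 : K[X]) := by
      rw [← C_mul, inv_mul_cancel₀ hcon.1, C_1]
    unfold fib
    linear_combination C (r.eval α)⁻¹ * h1 + h2

end Pool.Agent.U978.FO
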