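import Mathlib

/-!
# Valuations at a generic point of a plane curve, and finite orbits

`L` is a field over the algebraically closed field `K`, `x` and `y` are elements of `L` with
`P (x, y) = 0`, and `v` is a valuation of `L` which is trivial on `K`.
-/

set_option autoImplicit false

namespace Pool.Agent.U978.FO

open Polynomial Polynomial.Bivariate

universe u w

section fib

variable {K : Type u} [Field K]

/-- the restriction `P(α, ·)` -/
noncomputable def fib (P : K[X][Y]) (α : K) : K[X] := P.map (evalRingHom α)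

lemma fib_swap (P : K[X][Y]) (β : K) : fib (swap P) β = P.eval (C β) := by
  unfold fib
  induction P using Polynomial.induction_on' with
  | add p q hp hq => rw [map_add, Polynomial.map_add, hp, hq, eval_add]
  | monomial n a =>
    rw [Bivariate.swap_monomial]
    induction a using Polynomial.induction_on' with
    | add p q hp hq =>
      rw [Polynomial.map_add, add_mul, Polynomial.map_add, hp, hq, map_add, eval_add]
    | monomial m r =>
      rw [Polynomial.map_mul, Polynomial.map_C, Polynomial.map_monomial, eval_monomial, map_pow,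
        coe_evalRingHom, eval_X, Polynomial.map_monomial, coe_evalRingHom, eval_C, C_pow]

lemma fib_swap' (P : K[X][Y]) (β : K) : fib P β = (swap P).eval (C β) := by
  rw [← fib_swap, Bivariate.swap_swap_apply]

lemma fib_eval (P : K[X][Y]) (α β : K) : (fib P α).eval β = P.evalEval α β :=
  map_evalRingHom_eval α β P

lemma evalEval_swap (P : K[X][Y]) (α β : K) : (swap P).evalEval β α = P.evalEval α β := by
  rw [← coe_aevalAeval_eq_evalEval, ← coe_aevalAeval_eq_evalEval]
  exact Bivariate.aevalAeval_swap β α P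

/-- the first order expansion in `X` -/
lemma expand (P : K[X][Y]) (α : K) : ∃ G : K[X][Y], P = (fib P α).map C + C (X - C α) * G := by
  have h : C (X - C α) ∣ P - (fib P α).map C := by
    rw [C_dvd_iff_dvd_coeff]
    intro i
    rw [coeff_sub, coeff_map, fib, coeff_map]
    exact X_sub_C_dvd_sub_C_eval
  obtain ⟨G, hG⟩ := h
  exact ⟨G, by rw [← hG]; ring⟩

/-- the mixed expansion -/
lemma mixed (P : K[X][Y]) (α β : K) : ∃ R : K[X][Y],
    P = (fib P α).map C + C (P.eval (C β)) - C (C (P.evalEval α β)) +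
      C (X - C α) * (Y - C (C β)) * R := by
  obtain ⟨G, hG⟩ := expand P α
  obtain ⟨R, hR⟩ : (Y - C (C β)) ∣ G - C (G.eval (C β)) := X_sub_C_dvd_sub_C_eval
  refine ⟨R, ?_⟩
  have h1 : P.eval (C β) = C ((fib P α).eval β) + (X - C α) * G.eval (C β) := by
    conv_lhs => rw [hG]
    rw [eval_add, eval_mul, eval_C, eval_map, eval₂_at_apply]
  rw [fib_eval] at h1
  have h2 : G = C (G.eval (C β)) + (Y - C (C β)) * R := by rw [← hR]; ring
  have h3 : C (P.eval (C β)) = C (C (P.evalEval α β)) + C (X - C α) * C (G.eval (C β)) := by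
    rw [h1, C_add, C_mul]
  rw [h3]
  conv_lhs => rw [hG, h2]
  ring

end fib

variable {K : Type u} [Field K] {L : Type w} [Field L] [Algebra K L]
variable {Γ : Type w} [LinearOrderedCommGroupWithZero Γ] (v : Valuation L Γ)

variable (K) in
/-- The valuation is trivial on `K`. -/
def Triv : Prop := ∀ k : K, k ≠ 0 → v (algebraMap K L k) = 1

variable {v}

namespace Triv

variable (hv : Triv K v)
include hv

lemma le_one (k : K) : v (algebraMap K L k) ≤ 1 := by
  by_cases hk : k = 0
  · rw [hk, map_zero, map_zero]; exact zero_le_one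
  · exact (hv k hk).le

lemma aeval_le {x : L} (hx : v x ≤ 1) (f : K[X]) : v (aeval x f) ≤ 1 := by
  rw [aeval_eq_sum_range]
  apply v.map_sum_le
  intro i _
  rw [Algebra.smul_def, map_mul, map_pow]
  exact mul_le_one' (hv.le_one _) (pow_le_one₀ zero_le hx)

lemma aeval2_le {x y : L} (hx : v x ≤ 1) (hy : v y ≤ 1) (P : K[X][Y]) :
    v (aevalAeval x y P) ≤ 1 := by
  induction P using Polynomial.induction_on' with
  | add p q hp hq => rw [map_add]; exact (v.map_add _ _).trans (max_le hp hq)
  | monomial n a =>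
    rw [← C_mul_X_pow_eq_monomial, map_mul, map_pow, aevalAeval_Y, aevalAeval_C, map_mul, map_pow]
    exact mul_le_one' (hv.aeval_le hx _) (pow_le_one₀ zero_le hy)

lemma sub_le {x : L} (hx : v x ≤ 1) (α : K) : v (x - algebraMap K L α) ≤ 1 :=
  (v.map_sub _ _).trans (max_le hx (hv.le_one α))

lemma sub_of_one_lt {x : L} (hx : 1 < v x) (α : K) : v (x - algebraMap K L α) = v x := by
  rw [sub_eq_add_neg]
  apply v.map_add_eq_of_lt_left
  rw [v.map_neg]
  exact (hv.le_one α).trans_lt hx

lemma sub_of_ne {x : L} {α α' : K} (h : v (x - algebraMap K L α) < 1) (hne : α ≠ α') :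
    v (x - algebraMap K L α') = 1 := by
  have e : x - algebraMap K L α' = (x - algebraMap K L α) + algebraMap K L (α - α') := by
    rw [map_sub]; ring
  have h1 : v (algebraMap K L (α - α')) = 1 := hv _ (sub_ne_zero.2 hne)
  rw [e, v.map_add_eq_of_lt_right (by rw [h1]; exact h), h1]

lemma aeval_sub_lt {x : L} (hx : v x ≤ 1) {α : K} (h : v (x - algebraMap K L α) < 1) (f : K[X]) :
    v (aeval x f - algebraMap K L (f.eval α)) < 1 := by
  obtain ⟨g, hg⟩ : X - C α ∣ f - C (f.eval α) := X_sub_C_dvd_sub_C_eval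
  have e : aeval x f - algebraMap K L (f.eval α) = (x - algebraMap K L α) * aeval x g := by
    have := congrArg (aeval x) hg
    simpa only [map_sub, map_mul, aeval_X, aeval_C] using this
  rw [e, map_mul]
  exact mul_lt_one_of_nonneg_of_lt_one_left zero_le h (hv.aeval_le hx g)

lemma aeval_eq_one {x : L} (hx : v x ≤ 1) {α : K} (h : v (x - algebraMap K L α) < 1) (f : K[X])
    (hf : f.eval α ≠ 0) : v (aeval x f) = 1 := by
  have h1 : v (algebraMap K L (f.eval α)) = 1 := hv _ hf
  have e : aeval x f = (aeval x f - algebraMap K L (f.eval α)) + algebraMap K L (f.eval α) := by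
    ring
  rw [e, v.map_add_eq_of_lt_right (by rw [h1]; exact hv.aeval_sub_lt hx h f), h1]

/-- A polynomial over `K` which is small at `y` has a root near `y`. -/
lemma exists_root [IsAlgClosed K] {y : L} (hy : v y ≤ 1) (f : K[X]) (hf : f ≠ 0)
    (h : v (aeval y f) < 1) : ∃ β, f.IsRoot β ∧ v (y - algebraMap K L β) < 1 := by
  by_contra hcon
  push Not at hcon
  have hs : f.Splits := IsAlgClosed.splits f
  have e := hs.eq_prod_roots
  have h1 : v (aeval y f) = 1 := by
    rw [e, map_mul, aeval_C, map_mul, hv _ (leadingCoeff_ne_zero.2 hf), one_mul,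
      map_multiset_prod, Multiset.map_map, map_multiset_prod, Multiset.map_map]
    apply Multiset.prod_eq_one
    intro t ht
    rw [Multiset.mem_map] at ht
    obtain ⟨β, hβ, rfl⟩ := ht
    have h2 : f.IsRoot β := isRoot_of_mem_roots hβ
    have h3 := hcon β h2
    simp only [Function.comp_apply, map_sub, aeval_X, aeval_C]
    exact le_antisymm (hv.sub_le hy β) h3
  rw [h1] at h
  exact lt_irrefl _ h

/-- The local statement: near an affine point `(α, β)` of the curve at which both coordinates are
unramified, `x - α` and `y - β` have the same valuation. -/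
lemma local_eq {x y : L} (hx : v x ≤ 1) (hy : v y ≤ 1) (P : K[X][Y]) (hP : aevalAeval x y P = 0)
    {α β : K} (h0 : P.evalEval α β = 0) (hα : (fib P α).Separable)
    (hβ : (fib (swap P) β).Separable)
    (h1 : v (x - algebraMap K L α) < 1) (h2 : v (y - algebraMap K L β) < 1) :
    v (x - algebraMap K L α) = v (y - algebraMap K L β) := by
  obtain ⟨R, hR⟩ := mixed P α β
  -- the two restrictions have simple roots
  have simple : ∀ (f : K[X]) (γ : K), f.Separable → f.eval γ = 0 →
      ∃ g : K[X], f = (X - C γ) * g ∧ g.eval γ ≠ 0 := by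
    intro f γ hf hγ
    obtain ⟨g, hg⟩ := dvd_iff_isRoot.2 (show f.IsRoot γ from hγ)
    refine ⟨g, hg, fun hg0 => ?_⟩
    have h3 := hf.eval₂_derivative_ne_zero (RingHom.id K) (x := γ) (by rw [eval₂_id]; exact hγ)
    apply h3
    rw [eval₂_id, hg, derivative_mul, eval_add, eval_mul, eval_mul, hg0, eval_sub, eval_X,
      eval_C]
    ring
  obtain ⟨g, hg, hg0⟩ := simple (fib P α) β hα (by rw [fib_eval]; exact h0)
  obtain ⟨k, hk, hk0⟩ := simple (fib (swap P) β) α hβ (by rw [fib_eval, evalEval_swap]; exact h0)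
  rw [fib_swap] at hk
  have e : (0 : L) = (y - algebraMap K L β) * aeval y g + (x - algebraMap K L α) * aeval x k +
      (x - algebraMap K L α) * (y - algebraMap K L β) * aevalAeval x y R := by
    have h3 := congrArg (aevalAeval x y) hR
    rw [hP, h0, C_0, C_0, sub_zero, hg, hk] at h3
    simp only [map_add, map_mul, map_sub, Polynomial.map_mul, Polynomial.map_sub, map_X, map_C,
      aevalAeval_C, aevalAeval_Y, aeval_X, aeval_C] at h3
    have h4 : aevalAeval x y (g.map C) = aeval y g := by
      rw [← Bivariate.swap_C, Bivariate.aevalAeval_swap, aevalAeval_C]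
    rw [h3, h4]
  have v1 : v (aeval x k) = 1 := hv.aeval_eq_one hx h1 k hk0
  have v2 : v (aeval y g) = 1 := hv.aeval_eq_one hy h2 g hg0
  have v3 : v (aeval x k + (y - algebraMap K L β) * aevalAeval x y R) = 1 := by
    rw [v.map_add_eq_of_lt_left, v1]
    rw [v1, map_mul]
    exact mul_lt_one_of_nonneg_of_lt_one_left zero_le h2 (hv.aeval2_le hx hy R)
  have e2 : (x - algebraMap K L α) * (aeval x k + (y - algebraMap K L β) * aevalAeval x y R) =
      -((y - algebraMap K L β) * aeval y g) := by
    linear_combination -e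
  have e3 := congrArg v e2
  rw [map_mul, v3, mul_one, v.map_neg, map_mul, v2, mul_one] at e3
  exact e3

/-- The statement at infinity. -/
lemma at_infinity {x y : L} (hx : 1 < v x) (hy : v y ≤ 1) (P : K[X][Y])
    (hP : aevalAeval x y P = 0) {β : K} (hβ0 : fib (swap P) β ≠ 0)
    (hβ : (fib (swap P) β).natDegree = (swap P).natDegree) :
    v (y - algebraMap K L β) = 1 := by
  by_contra hne
  have h2 : v (y - algebraMap K L β) < 1 := lt_of_le_of_ne (hv.sub_le hy β) hne
  obtain ⟨Q, hQ⟩ : ∃ Q, Q = swap P := ⟨_, rfl⟩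
  rw [← hQ] at hβ hβ0
  have hQ0 : aevalAeval y x Q = 0 := by rw [hQ, Bivariate.aevalAeval_swap, hP]
  obtain ⟨m, hm⟩ : ∃ m, m = Q.natDegree := ⟨_, rfl⟩
  have hlead : (Q.coeff m).eval β ≠ 0 := by
    have h3 : (fib Q β).coeff m ≠ 0 := by
      rw [hm, ← hβ, coeff_natDegree]
      exact leadingCoeff_ne_zero.2 hβ0
    rwa [fib, coeff_map, coe_evalRingHom] at h3
  have v1 : v (aeval y (Q.coeff m)) = 1 := hv.aeval_eq_one hy h2 _ hlead
  have hsum : aevalAeval y x Q = ∑ i ∈ Finset.range (m + 1), aeval y (Q.coeff i) * x ^ i := by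
    conv_lhs => rw [Q.as_sum_range_C_mul_X_pow, ← hm, map_sum]
    refine Finset.sum_congr rfl fun i _ => ?_
    rw [map_mul, map_pow, aevalAeval_Y, aevalAeval_C]
  rw [Finset.sum_range_succ, hQ0] at hsum
  have h4 : v (aeval y (Q.coeff m) * x ^ m) = v x ^ m := by rw [map_mul, v1, one_mul, map_pow]
  have hx0 : v x ≠ 0 := (zero_lt_one.trans hx).ne'
  have h5 : v (∑ i ∈ Finset.range m, aeval y (Q.coeff i) * x ^ i) < v x ^ m := by
    apply v.map_sum_lt (pow_ne_zero _ hx0)
    intro i hi
    rw [Finset.mem_range] at hi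
    rw [map_mul, map_pow]
    calc v (aeval y (Q.coeff i)) * v x ^ i ≤ 1 * v x ^ i := mul_le_mul_left (hv.aeval_le hy _) _
      _ = v x ^ i := one_mul _
      _ < v x ^ m := pow_lt_pow_right₀ hx hi
  have h6 : v (∑ i ∈ Finset.range m, aeval y (Q.coeff i) * x ^ i) = v x ^ m := by
    have : ∑ i ∈ Finset.range m, aeval y (Q.coeff i) * x ^ i = -(aeval y (Q.coeff m) * x ^ m) := by
      linear_combination -hsum
    rw [this, v.map_neg, h4]
  rw [h6] at h5
  exact lt_irrefl _ h5

end Triv

end Pool.Agent.U978.FO
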